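import Pool.Agent.R855.Grid.Core

/-!
# Irreducible `(2,3)`-grid-free affine hypersurfaces are not of bounded degree up to automorphisms

For `s = 2`, `t = 3` and every `d` the hypersurface
`H = {y_1 ^ 2 + y_2 ^ D + x_1 y_2 + x_2 = 0}` in `𝔸² × 𝔸²`, `D = 4 d + 1`, is irreducible and
`(2,3)`-grid-free, but it is not of the form `{F ∘ (id × σ) = 0}` with a polynomial automorphism
`σ` of `𝔸²` and a polynomial `F` of degree at most `d` in `y`.  This answers the question in the
negative.

Proof of the last point: with `τ = σ⁻¹` the irreducible polynomial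
`τ_1 ^ 2 + τ_2 ^ D + x_1 τ_2 + x_2` divides `F`, so `τ_2` and `g = τ_1 ^ 2 + τ_2 ^ D` have degree
at most `d`.  For a derivation `'` the polynomial `τ_1` divides `D τ_2' g - g' τ_2`, which has
degree at most `2 d`, and `2 deg τ_1 = D deg τ_2 ≥ D`.
-/

set_option autoImplicit false

open MvPolynomial

namespace Pool.Agent.Results.MP_a64928_ag.GridFreeUnbounded

/-- Polynomials in `x_1, …, x_s` and `y_1, …, y_s`: polynomials in the `y_i` with coefficients in
`ℂ[x_1, …, x_s]`.  The degree in `y` is `totalDegree`. -/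
abbrev Poly (s : ℕ) : Type := MvPolynomial (Fin s) (MvPolynomial (Fin s) ℂ)

/-- The points of `𝔸^s × 𝔸^s = ℂ^s × ℂ^s`. -/
abbrev Pt (s : ℕ) : Type := (Fin s → ℂ) × (Fin s → ℂ)

/-- The value `F(u, v)`. -/
noncomputable def value {s : ℕ} (F : Poly s) (u v : Fin s → ℂ) : ℂ := eval v (map (eval u) F)

/-- The zero set of `F` in `ℂ^s × ℂ^s`. -/
def zeroSet {s : ℕ} (F : Poly s) : Set (Pt s) := {p | value F p.1 p.2 = 0}

/-- Algebraic sets: common zero sets of families of polynomials. -/
def IsAlgebraic {s : ℕ} (Z : Set (Pt s)) : Prop :=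
  ∃ I : Set (Poly s), Z = {p | ∀ F ∈ I, value F p.1 p.2 = 0}

/-- `H` is an affine hypersurface: the zero set of a nonconstant polynomial. -/
def IsHypersurface {s : ℕ} (H : Set (Pt s)) : Prop :=
  ∃ F : Poly s, (∀ c : ℂ, F ≠ C (C c)) ∧ H = zeroSet F

/-- `H` is irreducible as an algebraic set. -/
def IsIrreducibleSet {s : ℕ} (H : Set (Pt s)) : Prop :=
  H.Nonempty ∧ ∀ A B : Set (Pt s), IsAlgebraic A → IsAlgebraic B → H ⊆ A ∪ B → H ⊆ A ∨ H ⊆ B

/-- `V ⊆ P₁ × P₂` is `(s, t)`-grid-free: it contains no `S × T` with `|S| = s`, `|T| = t`. -/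
def GridFree {P₁ P₂ : Type} (s t : ℕ) (V : Set (P₁ × P₂)) : Prop :=
  ¬ ∃ (S : Finset P₁) (T : Finset P₂), S.card = s ∧ T.card = t ∧ ∀ a ∈ S, ∀ b ∈ T, (a, b) ∈ V

/-- A polynomial automorphism of `𝔸^s`: a polynomial map with a polynomial inverse. -/
structure PolyAut (s : ℕ) where
  /-- the components of the automorphism -/
  comp : Fin s → MvPolynomial (Fin s) ℂ
  /-- the components of the inverse -/
  inv : Fin s → MvPolynomial (Fin s) ℂ
  left_inv : ∀ v : Fin s → ℂ, (fun i => eval (fun j => eval v (comp j)) (inv i)) = v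
  right_inv : ∀ v : Fin s → ℂ, (fun i => eval (fun j => eval v (inv j)) (comp i)) = v

/-- The automorphism as a self-map of `ℂ^s`. -/
noncomputable def PolyAut.map {s : ℕ} (σ : PolyAut s) (v : Fin s → ℂ) : Fin s → ℂ :=
  fun i => eval v (σ.comp i)

/-- The zero set of `F ∘ (id × σ)`. -/
def pullbackSet {s : ℕ} (F : Poly s) (σ : PolyAut s) : Set (Pt s) :=
  {p | value F p.1 (σ.map p.2) = 0}

/-! ### Evaluation -/

lemma value_ext {s : ℕ} (F : Poly s) (h : ∀ u v, value F u v = 0) : F = 0 := by
  ext m : 1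
  rw [coeff_zero]
  apply MvPolynomial.funext
  intro u
  have h1 : MvPolynomial.map (eval u) F = 0 := by
    apply MvPolynomial.funext
    intro v
    rw [map_zero]
    exact h u v
  have h2 := congrArg (coeff m) h1
  rw [coeff_map, coeff_zero] at h2
  rw [h2, map_zero]

lemma value_mul {s : ℕ} (F G : Poly s) (u v : Fin s → ℂ) :
    value (F * G) u v = value F u v * value G u v := by
  simp [value]

/-- substitution of `- W` for the variable `x_2` -/
noncomputable def sub (W : Poly 2) : Poly 2 →+* Poly 2 :=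
  eval₂Hom (eval₂Hom (C.comp C) ![C (X 0), -W]) X

lemma value_sub (W p : Poly 2) (u v : Fin 2 → ℂ) :
    value (sub W p) u v = value p ![u 0, -(value W u v)] v := by
  have h : ((eval v).comp (MvPolynomial.map (eval u))).comp (sub W) =
      (eval v).comp (MvPolynomial.map (eval ![u 0, -(value W u v)])) := by
    apply ringHom_ext
    · intro r
      have h1 : (((eval v).comp (MvPolynomial.map (eval u))).comp (sub W)).comp C =
          ((eval v).comp (MvPolynomial.map (eval ![u 0, -(value W u v)]))).comp C := by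
        apply ringHom_ext
        · intro c
          simp [sub]
        · intro i
          fin_cases i
          · simp [sub]
          · simp [sub, value]
      exact DFunLike.congr_fun h1 r
    · intro i
      simp [sub]
  exact DFunLike.congr_fun h p

lemma dvd_self_sub (W p : Poly 2) : (C (X 1) + W) ∣ p - sub W p := by
  rw [← Ideal.mem_span_singleton, ← Ideal.Quotient.eq]
  set I := Ideal.span {(C (X 1) + W : Poly 2)} with hI
  have h : (Ideal.Quotient.mk I) = (Ideal.Quotient.mk I).comp (sub W) := by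
    apply ringHom_ext
    · intro r
      have h1 : (Ideal.Quotient.mk I).comp C = ((Ideal.Quotient.mk I).comp (sub W)).comp C := by
        apply ringHom_ext
        · intro c
          simp [sub]
        · intro i
          fin_cases i
          · simp [sub]
          · simp only [Fin.mk_one, RingHom.comp_apply, sub, eval₂Hom_C, eval₂Hom_X',
              Matrix.cons_val_one, Matrix.cons_val_fin_one]
            rw [Ideal.Quotient.eq, sub_neg_eq_add]
            exact Ideal.mem_span_singleton_self _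
      exact DFunLike.congr_fun h1 r
    · intro i
      simp [sub]
  exact DFunLike.congr_fun h p

/-! ### The hypersurface -/

/-- The polynomial `y_1 ^ 2 + y_2 ^ D + x_1 y_2 + x_2`. -/
noncomputable def thePoly (D : ℕ) : Poly 2 := X 0 ^ 2 + X 1 ^ D + C (X 0) * X 1 + C (X 1)

lemma value_thePoly (D : ℕ) (u v : Fin 2 → ℂ) :
    value (thePoly D) u v = v 0 ^ 2 + v 1 ^ D + u 0 * v 1 + u 1 := by
  simp [value, thePoly]

lemma hypersurface (D : ℕ) : IsHypersurface (zeroSet (thePoly D)) := by
  refine ⟨thePoly D, fun c h => ?_, rfl⟩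
  have h1 := congrArg (fun F => value F ![0, 0] ![0, 0] - value F ![0, 1] ![0, 0]) h
  simp only [value_thePoly] at h1
  simp [value] at h1

lemma gridFree (D : ℕ) : GridFree 2 3 (zeroSet (thePoly D)) := by
  classical
  rintro ⟨S, T, hS, hT, h⟩
  obtain ⟨a, b, hab, rfl⟩ := Finset.card_eq_two.1 hS
  have ha : ∀ v ∈ T, v 0 ^ 2 + v 1 ^ D + a 0 * v 1 + a 1 = 0 := fun v hv => by
    have := h a (by simp) v hv
    rwa [zeroSet, Set.mem_ofPred_eq, value_thePoly] at this
  have hb : ∀ v ∈ T, v 0 ^ 2 + v 1 ^ D + b 0 * v 1 + b 1 = 0 := fun v hv => by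
    have := h b (by simp) v hv
    rwa [zeroSet, Set.mem_ofPred_eq, value_thePoly] at this
  have hT0 : T.Nonempty := by
    rw [← Finset.card_pos]
    omega
  obtain ⟨w, hw⟩ := hT0
  have hab0 : a 0 ≠ b 0 := by
    intro h0
    have h1 : a 1 = b 1 := by
      have h2 := ha w hw
      have h3 := hb w hw
      rw [h0] at h2
      linear_combination h2 - h3
    apply hab
    funext i
    fin_cases i
    · exact h0
    · exact h1
  have h1 : ∀ v ∈ T, v 1 = w 1 := by
    intro v hv
    have h2 : (a 0 - b 0) * (v 1 - w 1) = 0 := by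
      linear_combination ha v hv - hb v hv - ha w hw + hb w hw
    exact sub_eq_zero.1 ((mul_eq_zero.1 h2).resolve_left (sub_ne_zero.2 hab0))
  have h2 : ∀ v ∈ T, v 0 = w 0 ∨ v 0 = - w 0 := by
    intro v hv
    have h3 : (v 0 - w 0) * (v 0 + w 0) = 0 := by
      have h4 := ha v hv
      rw [h1 v hv] at h4
      linear_combination h4 - ha w hw
    rcases mul_eq_zero.1 h3 with h5 | h5
    · exact Or.inl (sub_eq_zero.1 h5)
    · exact Or.inr (eq_neg_of_add_eq_zero_left h5)
  have hsub : T ⊆ {![w 0, w 1], ![-w 0, w 1]} := by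
    intro v hv
    rw [Finset.mem_insert, Finset.mem_singleton]
    rcases h2 v hv with h3 | h3
    · left
      funext i
      fin_cases i
      · exact h3
      · exact h1 v hv
    · right
      funext i
      fin_cases i
      · exact h3
      · exact h1 v hv
  have := Finset.card_le_card hsub
  have h5 := Finset.card_le_two (a := ![w 0, w 1]) (b := ![-w 0, w 1])
  omega

lemma irreducible (D : ℕ) : IsIrreducibleSet (zeroSet (thePoly D)) := by
  set W : Poly 2 := X 0 ^ 2 + X 1 ^ D + C (X 0) * X 1 with hW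
  have hWv : ∀ u v, value W u v = v 0 ^ 2 + v 1 ^ D + u 0 * v 1 := by
    intro u v
    simp [value, hW]
  have hmem : ∀ u v : Fin 2 → ℂ, ((![u 0, -(value W u v)], v) : Pt 2) ∈ zeroSet (thePoly D) := by
    intro u v
    rw [zeroSet, Set.mem_ofPred_eq, value_thePoly, hWv]
    simp
  refine ⟨⟨_, hmem 0 0⟩, ?_⟩
  rintro A B ⟨I, rfl⟩ ⟨J, rfl⟩ hAB
  by_contra hcon
  push Not at hcon
  obtain ⟨h1, h2⟩ := hcon
  rw [Set.not_subset] at h1 h2
  obtain ⟨p, hp, hpA⟩ := h1
  obtain ⟨q, hq, hqB⟩ := h2
  simp only [Set.mem_ofPred_eq, not_forall] at hpA hqB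
  obtain ⟨F, hF, hFp⟩ := hpA
  obtain ⟨G, hG, hGq⟩ := hqB
  have key : ∀ r ∈ zeroSet (thePoly D), ![r.1 0, -(value W r.1 r.2)] = r.1 := by
    intro r hr
    rw [zeroSet, Set.mem_ofPred_eq, value_thePoly] at hr
    funext i
    fin_cases i
    · rfl
    · show -(value W r.1 r.2) = r.1 1
      rw [hWv]
      linear_combination -hr
  have hF0 : sub W F ≠ 0 := by
    intro h0
    apply hFp
    have h1 := value_sub W F p.1 p.2
    rw [h0, key p hp] at h1
    rw [← h1]
    simp [value]
  have hG0 : sub W G ≠ 0 := by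
    intro h0
    apply hGq
    have h1 := value_sub W G q.1 q.2
    rw [h0, key q hq] at h1
    rw [← h1]
    simp [value]
  apply mul_ne_zero hF0 hG0
  apply value_ext
  intro u v
  rw [value_mul, value_sub, value_sub]
  rcases hAB (hmem u v) with h3 | h3
  · rw [show value F ![u 0, -(value W u v)] v = 0 from h3 F hF, zero_mul]
  · rw [show value G ![u 0, -(value W u v)] v = 0 from h3 G hG, mul_zero]

/-- the inclusion of `ℂ[y]` in `ℂ[x][y]` -/
noncomputable def inc (p : MvPolynomial (Fin 2) ℂ) : Poly 2 := MvPolynomial.map C p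

lemma value_inc (p : MvPolynomial (Fin 2) ℂ) (u v : Fin 2 → ℂ) : value (inc p) u v = eval v p := by
  unfold value inc
  rw [map_map]
  have : (eval u).comp C = RingHom.id ℂ := by
    ext z
    simp
  rw [this, map_id]

lemma not_pullback (d : ℕ) (F : Poly 2) (hF : F.totalDegree ≤ d) (σ : PolyAut 2) :
    zeroSet (thePoly (4 * d + 1)) ≠ pullbackSet F σ := by
  intro heq
  set D := 4 * d + 1 with hD
  set t := σ.inv 1 with ht
  set r := σ.inv 0 with hr
  set W : Poly 2 := inc r ^ 2 + inc t ^ D + C (X 0) * inc t with hW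
  have hWv : ∀ u v, value W u v = eval v r ^ 2 + eval v t ^ D + u 0 * eval v t := by
    intro u v
    rw [← value_inc r u v, ← value_inc t u v]
    simp [value, hW]
  -- the value of the inverse
  have hpt : ∀ u w : Fin 2 → ℂ, value F u w = 0 ↔
      eval w r ^ 2 + eval w t ^ D + u 0 * eval w t + u 1 = 0 := by
    intro u w
    have h1 : ((u, fun j => eval w (σ.inv j)) : Pt 2) ∈ zeroSet (thePoly D) ↔
        ((u, fun j => eval w (σ.inv j)) : Pt 2) ∈ pullbackSet F σ := by rw [heq]
    rw [zeroSet, pullbackSet, Set.mem_ofPred_eq, Set.mem_ofPred_eq, value_thePoly] at h1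
    have h2 : σ.map (fun j => eval w (σ.inv j)) = w := σ.right_inv w
    rw [h2] at h1
    exact h1.symm
  have hF0 : F ≠ 0 := by
    rintro rfl
    have h1 := (hpt 0 0).1 (by simp [value])
    have h2 := (hpt ![0, 1] 0).1 (by simp [value])
    simp only [Pi.zero_apply, Matrix.cons_val_zero, Matrix.cons_val_one,
      Matrix.cons_val_fin_one] at h1 h2
    exact one_ne_zero (α := ℂ) (by linear_combination h2 - h1)
  have hsub : sub W F = 0 := by
    apply value_ext
    intro u v
    rw [value_sub, hpt, hWv]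
    simp
  obtain ⟨R, hR⟩ := dvd_self_sub W F
  rw [hsub, sub_zero] at hR
  have hle : (C (X 1) + W).totalDegree ≤ d := by
    refine (totalDegree_le_of_dvd_of_isDomain ⟨R, hR⟩ hF0).trans hF
  have hcoeff : ∀ m : Fin 2 →₀ ℕ, d < m.sum (fun _ e => e) →
      (C (coeff m (r ^ 2 + t ^ D)) + X 0 * C (coeff m t) : MvPolynomial (Fin 2) ℂ) = 0 := by
    intro m hm
    have h1 : coeff m (C (X 1) + W) = 0 := by
      apply coeff_eq_zero_of_totalDegree_lt
      exact lt_of_le_of_lt hle hm
    have hm0 : m ≠ 0 := by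
      rintro rfl
      simp at hm
    have h2 : coeff m (C (X 1) + W) = C (coeff m (r ^ 2 + t ^ D)) + X 0 * C (coeff m t) := by
      have h3 : W = inc (r ^ 2 + t ^ D) + C (X 0) * inc t := by
        rw [hW]
        simp [inc]
      rw [h3, coeff_add, coeff_C, if_neg (Ne.symm hm0), zero_add, coeff_add, coeff_C_mul]
      unfold inc
      rw [coeff_map, coeff_map]
    rw [← h2, h1]
  have ht' : t.totalDegree ≤ d := by
    refine Finset.sup_le fun m hm => ?_
    by_contra hlt
    push Not at hlt
    rw [mem_support_iff] at hm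
    apply hm
    have h1 := hcoeff m hlt
    have h2 := congrArg (eval ![1, 0]) h1
    have h3 := congrArg (eval ![0, 0]) h1
    simp only [map_add, map_mul, eval_C, eval_X, map_zero, Matrix.cons_val_zero] at h2 h3
    linear_combination h2 - h3
  have hg' : (r ^ 2 + t ^ D).totalDegree ≤ d := by
    refine Finset.sup_le fun m hm => ?_
    by_contra hlt
    push Not at hlt
    rw [mem_support_iff] at hm
    apply hm
    have h1 := hcoeff m hlt
    have h3 := congrArg (eval ![0, 0]) h1
    simp only [map_add, map_mul, eval_C, eval_X, map_zero, Matrix.cons_val_zero] at h3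
    linear_combination h3
  -- the inverse is surjective
  have hsurj : ∀ w : Fin 2 → ℂ, ∃ v : Fin 2 → ℂ, eval v r = w 0 ∧ eval v t = w 1 := by
    intro w
    have h1 := σ.left_inv w
    exact ⟨_, congrFun h1 0, congrFun h1 1⟩
  have ht1 : 1 ≤ t.totalDegree := by
    by_contra hcon
    have h1 : t.totalDegree = 0 := by omega
    rw [totalDegree_eq_zero_iff_eq_C] at h1
    obtain ⟨v, -, hv⟩ := hsurj ![0, 0]
    obtain ⟨v', -, hv'⟩ := hsurj ![0, 1]
    rw [h1, eval_C] at hv hv'
    rw [hv] at hv'
    simp at hv'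
  refine Pool.Agent.R855.Grid.core_affine d D t (r ^ 2 + t ^ D) r (by omega) rfl ht1 ht' hg'
    fun c hc => ?_
  obtain ⟨v, hv0, hv1⟩ := hsurj ![1, 0]
  have h1 := congrArg (eval v) hc
  rw [map_pow, map_mul, map_pow, hv0, hv1] at h1
  simp [hD] at h1

/-- **Negative answer.**  For `s = 2`, `t = 3` and for every `d` there is an irreducible
`(2,3)`-grid-free affine hypersurface `H ⊆ 𝔸² × 𝔸²` which is not `{F ∘ (id × σ) = 0}` for any
`σ ∈ Aut(𝔸²)` and any polynomial `F` of degree at most `d` in `y`. -/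
theorem result : ∀ d : ℕ, ∃ H : Set (Pt 2), IsHypersurface H ∧ IsIrreducibleSet H ∧
    GridFree 2 3 H ∧ ∀ (σ : PolyAut 2) (F : Poly 2), F.totalDegree ≤ d → H ≠ pullbackSet F σ :=
  fun d => ⟨zeroSet (thePoly (4 * d + 1)), hypersurface _, irreducible _, gridFree _,
    fun σ F hF => not_pullback d F hF σ⟩

end Pool.Agent.Results.MP_a64928_ag.GridFreeUnbounded
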